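import Pool.Agent.W318.SC.Chain4

/-! # CHAIN: closed chains of length about `δ^{-D}` with jumps `O(δ)` -/

set_option autoImplicit false

open scoped Manifold ContDiff Topology
open Filter Set Metric

universe u

namespace Pool.Agent.W318.SC

open Pool.Agent.H718R2.G Pool.Agent.W564.SC

theorem chain (h : S_AD.{u}) (h2 : S_MET.{u}) : S_CHAIN.{u} := by
  intro k D n N _ _ _ _ _ r hr hD hDk R hR a ha F hF haF z hz
  obtain ⟨d, hd0, hdn, hds, hdt, hdc, hdch, hdg, hdG⟩ := h2 n N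
  have hLa : ∃ La : ℝ, 0 ≤ La ∧ ∀ y y' j, ‖a y j - a y' j‖ ≤ La * d y y' := by
    choose L hL using fun j => hdg (fun y => a y j)
      ((ha.smooth j).of_le (by exact_mod_cast le_top))
    refine ⟨∑ j, |L j|, Finset.sum_nonneg fun j _ => abs_nonneg _, fun y y' j => ?_⟩
    have h3 : |L j| ≤ ∑ j, |L j| :=
      Finset.single_le_sum (f := fun j => |L j|) (fun j _ => abs_nonneg _) (Finset.mem_univ j)
    calc ‖a y j - a y' j‖ ≤ L j * d y y' := hL j y y'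
      _ ≤ |L j| * d y y' := mul_le_mul_of_nonneg_right (le_abs_self _) (hdn _ _)
      _ ≤ _ := mul_le_mul_of_nonneg_right h3 (hdn _ _)
  obtain ⟨La, hLa0, hLa⟩ := hLa
  have hLF : ∃ LF : ℝ, 0 ≤ LF ∧ ∀ y y', d (F y) (F y') ≤ LF * d y y' := by
    obtain ⟨L, hL⟩ := hdG 0 (fun q => F q.2)
      ((F.contMDiff.comp contMDiff_snd).of_le (by exact_mod_cast hr)) {0} isCompact_singleton
    refine ⟨|L|, abs_nonneg _, fun y y' => ?_⟩
    exact (hL 0 rfl y y').trans (mul_le_mul_of_nonneg_right (le_abs_self _) (hdn _ _))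
  obtain ⟨LF, hLF0, hLF⟩ := hLF
  obtain ⟨LR, hLR0, hLR⟩ := R_lip hR d hdn hdG
  obtain ⟨A, χs, zs, O, S, L, K, hA, hχ, hO, hOS, hL1, hK0, hL, hK⟩ :=
    charts h hDk hR ha d hdn hdch La hLa0 hLa z
  obtain ⟨ε0, hε0, hε⟩ := eps d hd0 hdn hdc χs zs hχ
  have hL0 : 0 ≤ L := by linarith
  obtain ⟨C4, hC4def⟩ : ∃ C4 : ℝ, C4 = LF * (K * D) + 1 + K * D := ⟨_, rfl⟩
  have hC4 : 0 < C4 := by
    rw [hC4def]
    positivity
  obtain ⟨δ0, hδ0def⟩ : ∃ δ0 : ℝ, δ0 = min 1 (ε0 / (LR * C4 + 1)) := ⟨_, rfl⟩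
  have hδ00 : 0 < δ0 := by
    rw [hδ0def]
    positivity
  have hδ01 : δ0 ≤ 1 := by
    rw [hδ0def]
    exact min_le_left _ _
  have hδ0ε : LR * (C4 * δ0) < ε0 := by
    have h3 : δ0 ≤ ε0 / (LR * C4 + 1) := by
      rw [hδ0def]
      exact min_le_right _ _
    rw [le_div_iff₀ (by positivity)] at h3
    have h4 : LR * (C4 * δ0) = δ0 * (LR * C4 + 1) - δ0 := by ring
    linarith
  have t1 : 0 ≤ (1 + (A : ℝ) * 5 ^ D) / δ0 ^ D := by positivity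
  have t2 : 0 ≤ L * (LR * C4) := by positivity
  have t3 : 0 ≤ La * L := by positivity
  obtain ⟨C, hCdef⟩ : ∃ C : ℝ, C = 1 + (1 + (A : ℝ) * 5 ^ D) / δ0 ^ D + L * (LR * C4) + La * L :=
    ⟨_, rfl⟩
  have hC1 : 1 ≤ C := by linarith
  refine ⟨A, χs, zs, C, hA, hχ, hC1, ?_, ?_⟩
  · intro b y hy y' hy' h3 h4 j
    calc ‖a y j - a y' j‖ ≤ La * d y y' := hLa y y' j
      _ ≤ La * (L * ‖χs b y - χs b y'‖) :=
        mul_le_mul_of_nonneg_left (hL b y hy y' hy' h3 h4).1 hLa0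
      _ = La * L * ‖χs b y - χs b y'‖ := by ring
      _ ≤ C * ‖χs b y - χs b y'‖ := mul_le_mul_of_nonneg_right (by linarith) (norm_nonneg _)
  intro δ hδ hδ1
  obtain ⟨δ', hδ'def⟩ : ∃ δ' : ℝ, δ' = min δ δ0 := ⟨_, rfl⟩
  have hδ'0 : 0 < δ' := by
    rw [hδ'def]
    exact lt_min hδ hδ00
  have hδ'δ : δ' ≤ δ := by
    rw [hδ'def]
    exact min_le_left _ _
  have hδ'δ0 : δ' ≤ δ0 := by
    rw [hδ'def]
    exact min_le_right _ _
  have hδ'1 : δ' ≤ 1 := hδ'δ.trans hδ1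
  have hδδ0 : δ * δ0 ≤ δ' := by
    rw [hδ'def, le_min_iff]
    constructor
    · calc δ * δ0 ≤ δ * 1 := mul_le_mul_of_nonneg_left hδ01 hδ.le
        _ = δ := mul_one _
    · calc δ * δ0 ≤ 1 * δ0 := mul_le_mul_of_nonneg_right hδ1 hδ00.le
        _ = δ0 := one_mul _
  obtain ⟨m1, c1, hm1, hc10, hc11, hc1M, hc1⟩ := chain_slice hR ha d hd0 hdc F hF haF z hz δ' hδ'0
  obtain ⟨m0, c0, hm0, hm0', hc0, hc0m, hc0M, hc0j⟩ := chain_abs d hdt {y | a y = a z} z rfl F A O S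
    hO (fun b y hy => (hOS b y hy).2.2) K LF hK0 hLF0 hLF
    (fun b y hy y' hy' hm hm' t ht => hK b y hy y' hy' (Eq.trans hm (Eq.symm hm')) t ht)
    δ' hδ'0 hδ'1 m1 c1 hm1 hc10 hc11 hc1M hc1
  rw [← hC4def] at hc0j
  obtain ⟨q, hq⟩ : ∃ q : ℕ, q = ⌈1 / ((m0 : ℝ) * δ' ^ D)⌉₊ := ⟨_, rfl⟩
  have hm0p : 0 < (m0 : ℝ) * δ' ^ D := by
    have : (0 : ℝ) < m0 := by exact_mod_cast hm0
    positivity
  have hq0 : 0 < q := by
    rw [hq]
    exact Nat.ceil_pos.2 (by positivity)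
  have hq1 : 1 ≤ (q : ℝ) * (m0 * δ' ^ D) := by
    have h3 := Nat.le_ceil (1 / ((m0 : ℝ) * δ' ^ D))
    rw [← hq, div_le_iff₀ hm0p] at h3
    exact h3
  have hq2 : (q : ℝ) * (m0 * δ' ^ D) ≤ 1 + A * 5 ^ D := by
    have h3 := Nat.ceil_lt_add_one (a := 1 / ((m0 : ℝ) * δ' ^ D)) (by positivity)
    rw [← hq] at h3
    have h4 : (q : ℝ) * (m0 * δ' ^ D) ≤ (1 / ((m0 : ℝ) * δ' ^ D) + 1) * (m0 * δ' ^ D) :=
      mul_le_mul_of_nonneg_right h3.le hm0p.le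
    have h5 : (1 / ((m0 : ℝ) * δ' ^ D) + 1) * (m0 * δ' ^ D) = 1 + m0 * δ' ^ D := by
      field_simp
    rw [h5] at h4
    linarith
  obtain ⟨g0, g1, g2⟩ := repeat_chain (fun y y' => d (F y) y' ≤ C4 * δ') z m0 c0 hm0 hc0 hc0m
    hc0j q
  refine ⟨q * m0, fun i => c0 (i % m0), Nat.mul_pos hq0 hm0, ?_, ?_, g0, g1, fun i => hc0M _,
    fun i _ γ => ?_⟩
  · have h3 : ((q * m0 : ℕ) : ℝ) * δ ^ D * δ0 ^ D ≤ 1 + A * 5 ^ D := by
      calc ((q * m0 : ℕ) : ℝ) * δ ^ D * δ0 ^ D = (q : ℝ) * (m0 * (δ * δ0) ^ D) := by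
            push_cast
            rw [mul_pow]
            ring
        _ ≤ (q : ℝ) * (m0 * δ' ^ D) := by gcongr
        _ ≤ _ := hq2
    rw [← le_div_iff₀ (by positivity)] at h3
    linarith
  · have h3 : 1 ≤ ((q * m0 : ℕ) : ℝ) * δ ^ D := by
      calc (1 : ℝ) ≤ (q : ℝ) * (m0 * δ' ^ D) := hq1
        _ ≤ (q : ℝ) * (m0 * δ ^ D) := by gcongr
        _ = _ := by
          push_cast
          ring
    calc (1 : ℝ) ≤ ((q * m0 : ℕ) : ℝ) * δ ^ D := h3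
      _ = 1 * (((q * m0 : ℕ) : ℝ) * δ ^ D) := (one_mul _).symm
      _ ≤ C * (((q * m0 : ℕ) : ℝ) * δ ^ D) :=
        mul_le_mul_of_nonneg_right hC1 (by linarith)
  · obtain ⟨b, hb⟩ := hO (R γ (c0 ((i + 1) % m0)))
    obtain ⟨hb1, hb2, -⟩ := hOS b _ hb
    have h3 : d (R γ (F (c0 (i % m0)))) (R γ (c0 ((i + 1) % m0))) ≤ LR * (C4 * δ') :=
      (hLR γ _ _).trans (mul_le_mul_of_nonneg_left (g2 i) hLR0)
    have h4 : d (R γ (c0 ((i + 1) % m0))) (R γ (F (c0 (i % m0)))) < ε0 := by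
      rw [hds]
      refine h3.trans_lt (lt_of_le_of_lt ?_ hδ0ε)
      exact mul_le_mul_of_nonneg_left (mul_le_mul_of_nonneg_left hδ'δ0 hC4.le) hLR0
    obtain ⟨h5, h6⟩ := hε b _ hb1 hb2 _ h4
    refine ⟨b, h5, hb1, by linarith, ?_⟩
    have h7 := (hL b _ h5 _ hb1 h6.le (by linarith)).2
    calc ‖χs b (R γ (F (c0 (i % m0)))) - χs b (R γ (c0 ((i + 1) % m0)))‖
        ≤ L * d (R γ (F (c0 (i % m0)))) (R γ (c0 ((i + 1) % m0))) := h7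
      _ ≤ L * (LR * (C4 * δ')) := mul_le_mul_of_nonneg_left h3 hL0
      _ = L * (LR * C4) * δ' := by ring
      _ ≤ C * δ' := mul_le_mul_of_nonneg_right (by linarith) hδ'0.le
      _ ≤ C * δ := mul_le_mul_of_nonneg_left hδ'δ (by linarith)

end Pool.Agent.W318.SC
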