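import Pool.Agent.W564.SC.Defs2

/-! # Closed chains: combinatorial and metric lemmas -/

set_option autoImplicit false

open scoped Manifold ContDiff Topology
open Filter Set Metric

namespace Pool.Agent.W318.SC

/-- a closed walk can be shortened -/
theorem short_walk {β : Type*} (rel : β → β → Prop) (p : β) (T : Finset β)
    (hT : ∀ x y, rel x y → y ∈ T) (m : ℕ) (w : ℕ → β) (hm : 1 ≤ m) (h0 : w 0 = p) (h1 : w m = p)
    (hw : ∀ i < m, rel (w i) (w (i + 1))) :
    ∃ (m' : ℕ) (w' : ℕ → β), 1 ≤ m' ∧ m' ≤ T.card ∧ w' 0 = p ∧ w' m' = p ∧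
      ∀ i < m', rel (w' i) (w' (i + 1)) := by
  classical
  let P : ℕ → Prop := fun m => 1 ≤ m ∧ ∃ w : ℕ → β, w 0 = p ∧ w m = p ∧
    ∀ i < m, rel (w i) (w (i + 1))
  have hP : ∃ m, P m := ⟨m, hm, w, h0, h1, hw⟩
  obtain ⟨hm0, w0, h00, h01, hw0⟩ : P (Nat.find hP) := Nat.find_spec hP
  refine ⟨Nat.find hP, w0, hm0, ?_, h00, h01, hw0⟩
  by_contra hcon
  push Not at hcon
  set m0 := Nat.find hP with hm0def
  have hmin : ∀ m1 < m0, ¬ P m1 := fun m1 h => Nat.find_min hP h
  have hpig : ∃ x ∈ Finset.range m0, ∃ y ∈ Finset.range m0, x ≠ y ∧ w0 (x + 1) = w0 (y + 1) := by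
    apply Finset.exists_ne_map_eq_of_card_lt_of_maps_to (t := T)
    · rwa [Finset.card_range]
    · intro x hx
      exact hT _ _ (hw0 x (Finset.mem_range.1 hx))
  have key : ∀ x y : ℕ, x < y → y < m0 → w0 (x + 1) = w0 (y + 1) → False := by
    intro x y hxy hy heq
    refine hmin (m0 - (y - x)) (by omega) ⟨by omega,
      fun t => if t ≤ x + 1 then w0 t else w0 (t + (y - x)), ?_, ?_, ?_⟩
    · simp [h00]
    · by_cases h : m0 - (y - x) ≤ x + 1
      · have e1 : m0 - (y - x) = x + 1 := by omega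
        have e2 : y + 1 = m0 := by omega
        simp only [e1, le_refl, if_true]
        rw [heq, e2, h01]
      · simp only [h, if_false]
        rw [show m0 - (y - x) + (y - x) = m0 by omega, h01]
    · intro t ht
      by_cases h2 : t + 1 ≤ x + 1
      · have h3 : t ≤ x + 1 := by omega
        simp only [h2, h3, if_true]
        exact hw0 t (by omega)
      · by_cases h3 : t ≤ x + 1
        · have e1 : t = x + 1 := by omega
          subst e1
          simp only [le_refl, if_true, h2, if_false]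
          rw [heq, show x + 1 + 1 + (y - x) = y + 1 + 1 by omega]
          exact hw0 (y + 1) (by omega)
        · simp only [h2, h3, if_false]
          rw [show t + 1 + (y - x) = t + (y - x) + 1 by omega]
          exact hw0 _ (by omega)
  obtain ⟨x, hx, y, hy, hne, heq⟩ := hpig
  rw [Finset.mem_range] at hx hy
  rcases lt_or_gt_of_ne hne with h | h
  · exact key x y h hy heq
  · exact key y x h hx heq.symm

/-- repetition of a closed chain -/
theorem repeat_chain {N : Type*} (rel : N → N → Prop) (z : N) (m0 : ℕ) (c0 : ℕ → N) (hm : 1 ≤ m0)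
    (h0 : c0 0 = z) (h1 : c0 m0 = z) (hc : ∀ i < m0, rel (c0 i) (c0 (i + 1))) (q : ℕ) :
    c0 (0 % m0) = z ∧ c0 ((q * m0) % m0) = z ∧
      ∀ i, rel (c0 (i % m0)) (c0 ((i + 1) % m0)) := by
  refine ⟨by simpa using h0, by simpa using h0, fun i => ?_⟩
  have hlt : i % m0 < m0 := Nat.mod_lt _ hm
  by_cases h : i % m0 + 1 = m0
  · have e1 : (i + 1) % m0 = 0 := by
      rw [Nat.add_mod]
      rcases Nat.eq_or_lt_of_le hm with h2 | h2
      · rw [← h2]
        simp [Nat.mod_one]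
      · rw [Nat.mod_eq_of_lt h2, h, Nat.mod_self]
    rw [e1]
    have h3 := hc _ hlt
    rw [h, h1, ← h0] at h3
    exact h3
  · have e1 : (i + 1) % m0 = i % m0 + 1 := by
      rw [Nat.add_mod]
      have h2 : 1 < m0 := by omega
      rw [Nat.mod_eq_of_lt h2, Nat.mod_eq_of_lt (by omega)]
    rw [e1]
    exact hc _ hlt

theorem exists_pos_le {A : ℕ} (f : Fin A → ℝ) (hf : ∀ b, 0 < f b) : ∃ ε > 0, ∀ b, ε ≤ f b := by
  have h0 : 0 ≤ ∑ b, (f b)⁻¹ := Finset.sum_nonneg fun b _ => (inv_pos.2 (hf b)).le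
  refine ⟨(1 + ∑ b, (f b)⁻¹)⁻¹, by positivity, fun b => ?_⟩
  have h1 : (f b)⁻¹ ≤ 1 + ∑ b, (f b)⁻¹ := by
    have := Finset.single_le_sum (f := fun b => (f b)⁻¹) (fun b _ => (inv_pos.2 (hf b)).le)
      (Finset.mem_univ b)
    linarith
  calc (1 + ∑ b, (f b)⁻¹)⁻¹ ≤ ((f b)⁻¹)⁻¹ := inv_anti₀ (inv_pos.2 (hf b)) h1
    _ = f b := inv_inv _

theorem le_one_add_sum {A : ℕ} (f : Fin A → ℝ) (hf : ∀ b, 0 ≤ f b) (b : Fin A) :
    f b ≤ 1 + ∑ b, f b := by
  have := Finset.single_le_sum (f := f) (fun b _ => hf b) (Finset.mem_univ b)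
  linarith

/-- neighbourhoods of compact sets -/
theorem leb {N : Type*} [TopologicalSpace N] [CompactSpace N] [T2Space N] (d : N → N → ℝ)
    (hd0 : ∀ y y', d y y' = 0 ↔ y = y') (hdn : ∀ y y', 0 ≤ d y y')
    (hdc : Continuous fun p : N × N => d p.1 p.2) (K U : Set N) (hK : IsCompact K)
    (hU : IsOpen U) (hKU : K ⊆ U) : ∃ ε > 0, ∀ y ∈ K, ∀ y', d y y' < ε → y' ∈ U := by
  have hc : IsCompact (K ×ˢ Uᶜ) := hK.prod hU.isClosed_compl.isCompact
  rcases (K ×ˢ Uᶜ).eq_empty_or_nonempty with h | h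
  · refine ⟨1, one_pos, fun y hy y' _ => ?_⟩
    by_contra hy'
    have : (y, y') ∈ K ×ˢ Uᶜ := ⟨hy, hy'⟩
    rw [h] at this
    exact this
  · obtain ⟨p, hp, hmin⟩ := hc.exists_isMinOn h hdc.continuousOn
    have hpos : 0 < d p.1 p.2 := by
      rcases (hdn p.1 p.2).eq_or_lt with h0 | h0
      · exfalso
        have h1 := (hd0 _ _).1 h0.symm
        exact hp.2 (h1 ▸ hKU hp.1)
      · exact h0
    refine ⟨d p.1 p.2, hpos, fun y hy y' hlt => ?_⟩
    by_contra hy'
    have h2 := hmin (show (y, y') ∈ K ×ˢ Uᶜ from ⟨hy, hy'⟩)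
    simp only [mem_ofPred_eq] at h2
    exact absurd hlt (not_lt.2 h2)

theorem four_le (s : ℝ) (hs : |s| ≤ 1 / 2) :
    4 * |s| ≤ ‖Complex.exp (2 * Real.pi * Complex.I * s) - 1‖ := by
  have h1 : Complex.exp (2 * Real.pi * Complex.I * s) =
      Complex.exp (Complex.I * ((2 * Real.pi * s : ℝ) : ℂ)) := by
    congr 1
    push_cast
    ring
  rw [h1, Complex.norm_exp_I_mul_ofReal_sub_one, Real.norm_eq_abs, abs_mul, abs_two]
  have h2 : |Real.sin (2 * Real.pi * s / 2)| = Real.sin (Real.pi * |s|) := by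
    rw [show 2 * Real.pi * s / 2 = Real.pi * s by ring]
    rcases le_total 0 s with h | h
    · rw [abs_of_nonneg h]
      apply abs_of_nonneg
      apply Real.sin_nonneg_of_nonneg_of_le_pi
      · positivity
      · rw [abs_of_nonneg h] at hs
        nlinarith [Real.pi_pos]
    · rw [abs_of_nonpos h]
      rw [mul_neg, Real.sin_neg]
      apply abs_of_nonpos
      rw [abs_of_nonpos h] at hs
      have : 0 ≤ Real.sin (Real.pi * (-s)) := by
        apply Real.sin_nonneg_of_nonneg_of_le_pi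
        · have := Real.pi_pos
          have h3 : 0 ≤ -s := by linarith
          positivity
        · nlinarith [Real.pi_pos]
      rw [mul_neg, Real.sin_neg] at this
      linarith
  rw [h2]
  have h3 := Real.mul_le_sin (x := Real.pi * |s|) (by positivity)
    (by nlinarith [Real.pi_pos])
  have h4 : 2 / Real.pi * (Real.pi * |s|) = 2 * |s| := by
    field_simp
  rw [h4] at h3
  linarith

theorem norm_le_sum {k : ℕ} (v : EuclideanSpace ℝ (Fin k)) : ‖v‖ ≤ ∑ j, |v j| := by
  rw [EuclideanSpace.norm_eq]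
  refine Real.sqrt_le_iff.2 ⟨Finset.sum_nonneg fun j _ => abs_nonneg _, ?_⟩
  exact Finset.sum_sq_le_sq_sum_of_nonneg fun j _ => abs_nonneg _

theorem abs_le_norm {k : ℕ} (v : EuclideanSpace ℝ (Fin k)) (j : Fin k) : |v j| ≤ ‖v‖ := by
  have := EuclideanSpace.norm_eq v
  rw [this]
  refine Real.le_sqrt_of_sq_le ?_
  have h := Finset.single_le_sum (f := fun j => ‖v j‖ ^ 2) (fun j _ => sq_nonneg _)
    (Finset.mem_univ j)
  simpa using h

end Pool.Agent.W318.SC
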