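import Pool.Agent.W318.SC.Chain1

/-! # The torus action: projection to a slice, boxes -/

set_option autoImplicit false

open scoped Manifold ContDiff Topology
open Filter Set Metric

universe u

namespace Pool.Agent.W318.SC

open Pool.Agent.H718R2.G Pool.Agent.W564.SC

section torus
variable {k n : ℕ} {N : Type u} [TopologicalSpace N] [ChartedSpace (V n) N]
  {R : V k → N → N}

theorem R_int (hR : FreeTorus k n N R) (l : V k) (hl : ∀ j, ∃ m : ℤ, l j = m) (y : N) :
    R l y = y := (hR.free l y).2 hl

/-- equal exponentials: equal rotations -/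
theorem R_eq (hR : FreeTorus k n N R) (s t : V k)
    (h : ∀ j, Complex.exp (2 * Real.pi * Complex.I * (s j : ℝ)) =
      Complex.exp (2 * Real.pi * Complex.I * (t j : ℝ))) (y : N) : R s y = R t y := by
  have h1 : R (s - t) y = y := by
    apply R_int hR
    intro j
    obtain ⟨m, hm⟩ := Complex.exp_eq_exp_iff_exists_int.1 (h j)
    refine ⟨m, ?_⟩
    have h2 : (2 * (Real.pi : ℂ) * Complex.I) ≠ 0 := by
      simp [Real.pi_ne_zero]
    have h3 : ((s j : ℝ) : ℂ) = (t j : ℝ) + m := by
      have h4 : (2 * (Real.pi : ℂ) * Complex.I) * ((s j : ℝ) : ℂ) =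
          (2 * (Real.pi : ℂ) * Complex.I) * ((t j : ℝ) + m) := by
        rw [hm]
        ring
      exact mul_left_cancel₀ h2 h4
    have h5 : s j = t j + m := by exact_mod_cast h3
    rw [PiLp.sub_apply, h5]
    ring
  calc R s y = R (t + (s - t)) y := by rw [add_sub_cancel]
    _ = R t (R (s - t) y) := hR.add _ _ _
    _ = R t y := by rw [h1]

theorem R_cont (hR : FreeTorus k n N R) : Continuous (fun q : V k × N => R q.1 q.2) :=
  hR.smooth.continuous

/-- the argument vector of `u` -/
noncomputable def argv {k : ℕ} (u : Fin k → ℂ) : V k :=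
  WithLp.toLp 2 (fun j => Complex.arg (u j) / (2 * Real.pi))

theorem argv_apply {k : ℕ} (u : Fin k → ℂ) (j : Fin k) :
    argv u j = Complex.arg (u j) / (2 * Real.pi) := rfl

theorem exp_argv {k : ℕ} (u : Fin k → ℂ) (j : Fin k) (h : ‖u j‖ = 1) :
    Complex.exp (2 * Real.pi * Complex.I * (argv u j : ℝ)) = u j := by
  rw [argv_apply]
  have h1 : (2 * Real.pi * Complex.I * ((Complex.arg (u j) / (2 * Real.pi) : ℝ) : ℂ)) =
      Complex.arg (u j) * Complex.I := by
    push_cast
    have : (Real.pi : ℂ) ≠ 0 := by exact_mod_cast Real.pi_ne_zero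
    field_simp
  rw [h1]
  have h2 := Complex.norm_mul_exp_arg_mul_I (u j)
  rw [h, Complex.ofReal_one, one_mul] at h2
  exact h2

/-- the projection to the slice through `z` -/
noncomputable def Pj (R : V k → N → N) (a : N → Fin k → ℂ) (z y : N) : N :=
  R (-argv (fun j => a y j / a z j)) y

variable {a : N → Fin k → ℂ}

theorem a_ne (ha : Trivial k n N R a) (y : N) (j : Fin k) : a y j ≠ 0 := by
  intro h
  have := ha.norm y j
  rw [h, norm_zero] at this
  exact zero_ne_one this

theorem norm_quot (ha : Trivial k n N R a) (y z : N) (j : Fin k) : ‖a y j / a z j‖ = 1 := by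
  rw [norm_div, ha.norm, ha.norm, div_one]

/-- `R (-s) y` for any `s` with the right exponentials -/
theorem Pj_eq (hR : FreeTorus k n N R) (ha : Trivial k n N R a) (z y : N) (s : V k)
    (hs : ∀ j, Complex.exp (2 * Real.pi * Complex.I * (s j : ℝ)) = a y j / a z j) :
    Pj R a z y = R (-s) y := by
  unfold Pj
  apply R_eq hR
  intro j
  have h1 := exp_argv (fun j => a y j / a z j) j (norm_quot ha y z j)
  rw [PiLp.neg_apply, PiLp.neg_apply]
  have h2 : ∀ x : ℝ, Complex.exp (2 * Real.pi * Complex.I * ((-x : ℝ) : ℂ)) =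
      (Complex.exp (2 * Real.pi * Complex.I * (x : ℝ)))⁻¹ := by
    intro x
    rw [← Complex.exp_neg]
    congr 1
    push_cast
    ring
  rw [h2, h2, h1, hs j]

theorem a_Pj (ha : Trivial k n N R a) (z y : N) :
    a (Pj R a z y) = a z := by
  funext j
  unfold Pj
  rw [ha.equiv, PiLp.neg_apply]
  have h1 := exp_argv (fun j => a y j / a z j) j (norm_quot ha y z j)
  have h2 : ∀ x : ℝ, Complex.exp (2 * Real.pi * Complex.I * ((-x : ℝ) : ℂ)) =
      (Complex.exp (2 * Real.pi * Complex.I * (x : ℝ)))⁻¹ := by
    intro x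
    rw [← Complex.exp_neg]
    congr 1
    push_cast
    ring
  rw [h2, h1]
  have h3 := a_ne ha y j
  have h4 := a_ne ha z j
  field_simp

theorem Pj_self (hR : FreeTorus k n N R) (ha : Trivial k n N R a) (z : N) : Pj R a z z = z := by
  rw [Pj_eq hR ha z z 0]
  · rw [neg_zero]
    exact hR.zero z
  · intro j
    have h4 := a_ne ha z j
    simp [h4]

theorem Pj_comm (z : N) (F : N → N)
    (hF : ∀ t y, F (R t y) = R t (F y)) (haF : ∀ y, a (F y) = a y) (y : N) :
    F (Pj R a z y) = Pj R a z (F y) := by
  unfold Pj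
  rw [hF, haF]

theorem Pj_cont (hR : FreeTorus k n N R) (ha : Trivial k n N R a) (z : N) :
    Continuous (Pj R a z) := by
  rw [continuous_iff_continuousAt]
  intro y0
  have h1 : ∀ y, Pj R a z y = R (-(argv (fun j => a y0 j / a z j) +
      argv (fun j => a y j / a y0 j))) y := by
    intro y
    apply Pj_eq hR ha
    intro j
    have e1 := exp_argv (fun j => a y0 j / a z j) j (norm_quot ha y0 z j)
    have e2 := exp_argv (fun j => a y j / a y0 j) j (norm_quot ha y y0 j)
    rw [PiLp.add_apply]
    rw [Complex.ofReal_add, mul_add, Complex.exp_add, e1, e2]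
    have h3 := a_ne ha y0 j
    have h4 := a_ne ha z j
    field_simp
  rw [show Pj R a z = fun y => R (-(argv (fun j => a y0 j / a z j) +
      argv (fun j => a y j / a y0 j))) y from funext h1]
  have h2 : ContinuousAt (fun y => argv (fun j => a y j / a y0 j)) y0 := by
    unfold argv
    refine (PiLp.continuous_toLp 2 _).continuousAt.comp ?_
    rw [continuousAt_pi]
    intro j
    refine ContinuousAt.div_const ?_ _
    have h3 : ContinuousAt (fun y => a y j / a y0 j) y0 :=
      ((ha.smooth j).continuous.continuousAt).div_const _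
    refine ContinuousAt.comp (g := Complex.arg) ?_ h3
    apply Complex.continuousAt_arg
    change a y0 j / a y0 j ∈ Complex.slitPlane
    rw [div_self (a_ne ha y0 j)]
    exact Complex.one_mem_slitPlane
  have h3 : ContinuousAt (fun y => ((-(argv (fun j => a y0 j / a z j) +
      argv (fun j => a y j / a y0 j)), y) : V k × N)) y0 :=
    ((continuousAt_const.add h2).neg).prodMk continuousAt_id
  exact ContinuousAt.comp (g := fun q : V k × N => R q.1 q.2) (R_cont hR).continuousAt h3

end torus

end Pool.Agent.W318.SC
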