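import Pool.Agent.W318.SC.Chain2

/-! # Closed chains: cells -/

set_option autoImplicit false

open scoped Manifold ContDiff Topology
open Filter Set Metric

universe u

namespace Pool.Agent.W318.SC

open Pool.Agent.H718R2.G Pool.Agent.W564.SC

theorem chain_abs {N : Type*} {D : ℕ} (d : N → N → ℝ) 
    (hdt : ∀ y y' y'', d y y'' ≤ d y y' + d y' y'') (M : Set N) (z : N) (hz : z ∈ M) (F : N → N)
    (A : ℕ) (O : Fin A → Set N) (S : Fin A → N → V D) (hO : ∀ y, ∃ b, y ∈ O b)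
    (hS : ∀ b, ∀ y ∈ O b, ‖S b y‖ ≤ 1) (C1 LF : ℝ) (hC1 : 0 ≤ C1) (hLF : 0 ≤ LF)
    (hF : ∀ y y', d (F y) (F y') ≤ LF * d y y')
    (hclose : ∀ b, ∀ y ∈ O b, ∀ y' ∈ O b, y ∈ M → y' ∈ M → ∀ t, ‖S b y - S b y'‖ ≤ t →
      d y y' ≤ C1 * t)
    (δ : ℝ) (hδ : 0 < δ) (hδ1 : δ ≤ 1) (m : ℕ) (c : ℕ → N) (hm : 1 ≤ m) (h0 : c 0 = z)
    (h1 : c m = z) (hcM : ∀ i, c i ∈ M) (hc : ∀ i < m, d (F (c i)) (c (i + 1)) < δ) :
    ∃ (m' : ℕ) (c' : ℕ → N), 1 ≤ m' ∧ (m' : ℝ) * δ ^ D ≤ A * 5 ^ D ∧ c' 0 = z ∧ c' m' = z ∧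
      (∀ i, c' i ∈ M) ∧
      ∀ i < m', d (F (c' i)) (c' (i + 1)) ≤ (LF * (C1 * D) + 1 + C1 * D) * δ := by
  classical
  choose b hb using hO
  let cell : N → Fin A × (Fin D → ℤ) := fun y => (b y, fun j => ⌊S (b y) y j / δ⌋)
  -- points of the same cell are close
  have hcl : ∀ y ∈ M, ∀ y' ∈ M, cell y = cell y' → d y y' ≤ C1 * D * δ := by
    intro y hy y' hy' heq
    have e1 : b y = b y' := (Prod.mk.inj heq).1
    have e2 := (Prod.mk.inj heq).2
    have h2 : ‖S (b y) y - S (b y) y'‖ ≤ D * δ := by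
      refine (norm_le_sum _).trans ?_
      have h3 : ∀ j, |(S (b y) y - S (b y) y') j| ≤ δ := by
        intro j
        have e3 := congrFun e2 j
        simp only at e3
        rw [← e1] at e3
        rw [PiLp.sub_apply]
        have f1 := Int.floor_le (S (b y) y j / δ)
        have f2 := Int.lt_floor_add_one (S (b y) y j / δ)
        have f3 := Int.floor_le (S (b y) y' j / δ)
        have f4 := Int.lt_floor_add_one (S (b y) y' j / δ)
        rw [e3] at f1 f2
        have f5 : |S (b y) y j / δ - S (b y) y' j / δ| ≤ 1 := by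
          rw [abs_le]
          constructor <;> linarith
        rw [← sub_div, abs_div, abs_of_pos hδ, div_le_one hδ] at f5
        exact f5
      calc ∑ j, |(S (b y) y - S (b y) y') j| ≤ ∑ _j : Fin D, δ := Finset.sum_le_sum fun j _ => h3 j
        _ = D * δ := by simp
    have h4 := hclose (b y) y (hb y) y' (e1 ▸ hb y') hy hy' _ h2
    linarith
  -- the finite set of cells
  let Mx : ℤ := ⌈1 / δ⌉
  let T : Finset (Fin A × (Fin D → ℤ)) :=
    Finset.univ ×ˢ Fintype.piFinset (fun _ => Finset.Icc (-Mx) Mx)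
  have hcellT : ∀ y, cell y ∈ T := by
    intro y
    simp only [T, cell, Finset.mem_product, Finset.mem_univ, true_and, Fintype.mem_piFinset,
      Finset.mem_Icc]
    intro j
    have h2 : |S (b y) y j| ≤ 1 := (abs_le_norm _ j).trans (hS (b y) y (hb y))
    have h3 : |S (b y) y j / δ| ≤ 1 / δ := by
      rw [abs_div, abs_of_pos hδ]
      exact div_le_div_of_nonneg_right h2 hδ.le
    have h4 := Int.le_ceil (1 / δ)
    have h5 := abs_le.1 h3
    constructor
    · rw [Int.le_floor]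
      push_cast
      linarith
    · have h6 := Int.floor_le (S (b y) y j / δ)
      have h7 : ((⌊S (b y) y j / δ⌋ : ℤ) : ℝ) ≤ ((Mx : ℤ) : ℝ) := by linarith
      exact_mod_cast h7
  have hMx0 : 0 ≤ Mx := Int.ceil_nonneg (by positivity)
  have hcardT : (T.card : ℝ) * δ ^ D ≤ A * 5 ^ D := by
    have e1 : T.card = A * (2 * Mx + 1).toNat ^ D := by
      simp only [T, Finset.card_product, Finset.card_univ, Fintype.card_fin, Fintype.card_piFinset,
        Int.card_Icc, Finset.prod_const]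
      congr 2
      congr 1
      ring
    rw [e1]
    push_cast
    have e2 : (((2 * Mx + 1).toNat : ℕ) : ℝ) = 2 * (Mx : ℝ) + 1 := by
      have : (((2 * Mx + 1).toNat : ℕ) : ℤ) = 2 * Mx + 1 := Int.toNat_of_nonneg (by omega)
      exact_mod_cast this
    rw [e2, mul_assoc, ← mul_pow]
    apply mul_le_mul_of_nonneg_left _ (Nat.cast_nonneg _)
    apply pow_le_pow_left₀
    · have : (0 : ℝ) ≤ Mx := by exact_mod_cast hMx0
      positivity
    · have h2 := Int.ceil_lt_add_one (1 / δ)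
      have h3 : (Mx : ℝ) < 1 / δ + 1 := h2
      have h4 : (2 * (Mx : ℝ) + 1) * δ ≤ (2 * (1 / δ + 1) + 1) * δ := by
        apply mul_le_mul_of_nonneg_right _ hδ.le
        linarith
      have h5 : (2 * (1 / δ + 1) + 1) * δ = 2 + 3 * δ := by
        field_simp
        ring
      rw [h5] at h4
      linarith
  -- the walk of cells
  let rel : Fin A × (Fin D → ℤ) → Fin A × (Fin D → ℤ) → Prop := fun P Q =>
    ∃ y ∈ M, ∃ y' ∈ M, cell y = P ∧ cell y' = Q ∧ d (F y) y' < δ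
  obtain ⟨m', w, hm'1, hm'T, hw0, hw1, hw⟩ := short_walk rel (cell z) T
    (fun x y hxy => by
      obtain ⟨_, _, y', _, _, h3, _⟩ := hxy
      rw [← h3]
      exact hcellT y') m (fun i => cell (c i)) hm (by simp only [h0]) (by simp only [h1])
    (fun i hi => ⟨c i, hcM i, c (i + 1), hcM (i + 1), rfl, rfl, hc i hi⟩)
  -- representatives
  let rep : Fin A × (Fin D → ℤ) → N := fun P =>
    if P = cell z then z else if h : ∃ y ∈ M, cell y = P then h.choose else z
  have hrepz : rep (cell z) = z := by simp [rep]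
  have hrepM : ∀ P, rep P ∈ M := by
    intro P
    simp only [rep]
    split_ifs with h1 h2
    · exact hz
    · exact h2.choose_spec.1
    · exact hz
  have hrep : ∀ y ∈ M, cell (rep (cell y)) = cell y := by
    intro y hy
    simp only [rep]
    split_ifs with h1 h2
    · exact h1.symm
    · exact h2.choose_spec.2
    · exact absurd ⟨y, hy, rfl⟩ h2
  refine ⟨m', fun i => rep (w i), hm'1, ?_, ?_, ?_, fun i => hrepM _, fun i hi => ?_⟩
  · refine le_trans (mul_le_mul_of_nonneg_right ?_ (by positivity)) hcardT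
    exact_mod_cast hm'T
  · simp only [hw0, hrepz]
  · simp only [hw1, hrepz]
  · obtain ⟨y, hy, y', hy', e1, e2, hlt⟩ := hw i hi
    simp only
    rw [← e1, ← e2]
    have f1 := hcl (rep (cell y)) (hrepM _) y hy (hrep y hy)
    have f2 := hcl y' hy' (rep (cell y')) (hrepM _) (hrep y' hy').symm
    have f3 := hF (rep (cell y)) y
    have f4 := hdt (F (rep (cell y))) (F y) (rep (cell y'))
    have f5 := hdt (F y) y' (rep (cell y'))
    have f6 : LF * d (rep (cell y)) y ≤ LF * (C1 * D * δ) := mul_le_mul_of_nonneg_left f1 hLF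
    have f7 : (LF * (C1 * D) + 1 + C1 * D) * δ = LF * (C1 * D * δ) + δ + C1 * D * δ := by ring
    rw [f7]
    linarith

section
variable {k n : ℕ} {N : Type u} [TopologicalSpace N] [ChartedSpace (V n) N]
  {R : V k → N → N} {a : N → Fin k → ℂ}

/-- two points of a slice with close second coordinates are close -/
theorem box_close {D : ℕ} (χ : OpenPartialHomeomorph N (V n)) (e : V n ≃L[ℝ] (V k × V D))
    (c La : ℝ) (hc : 0 < c) (hLa : 0 ≤ La) (ha : Trivial k n N R a)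
    (hbox : ∀ y ∈ χ.source, ∀ γ : V k, ‖e (χ y)‖ ≤ c → ‖γ‖ ≤ c →
        R γ y ∈ χ.source ∧ e (χ (R γ y)) = e (χ y) + (γ, 0))
    (hLip : ∀ y ∈ χ.source, ∀ y' ∈ χ.source, ‖χ y‖ ≤ 1 / 2 → ‖χ y'‖ ≤ 1 / 2 →
      ∀ j, ‖a y j - a y' j‖ ≤ La * ‖χ y - χ y'‖) :
    ∃ c1 K : ℝ, 0 < c1 ∧ c1 ≤ 1 ∧ 0 ≤ K ∧ ∀ y ∈ χ.source, ∀ y' ∈ χ.source,
      ‖e (χ y)‖ ≤ c1 → ‖e (χ y')‖ ≤ c1 → a y = a y' →
      ∀ t, ‖(e (χ y)).2 - (e (χ y')).2‖ ≤ t → ‖χ y - χ y'‖ ≤ K * t := by
  set E : ℝ := ‖(e.symm : (V k × V D) →L[ℝ] V n)‖ with hEdef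
  have hE0 : 0 ≤ E := norm_nonneg _
  have hE : ∀ v : V n, ‖v‖ ≤ E * ‖e v‖ := by
    intro v
    have h1 := (e.symm : (V k × V D) →L[ℝ] V n).le_opNorm (e v)
    simpa using h1
  have hE2 : ∀ v w : V n, ‖v - w‖ ≤ E * ‖e v - e w‖ := by
    intro v w
    have := hE (v - w)
    rwa [map_sub] at this
  refine ⟨min (c / 2) (min (1 / 8) (1 / (2 * (E + 1)))), E * (k * (La * E) + 1), by positivity,
    ?_, by positivity, ?_⟩
  · exact (min_le_right _ _).trans ((min_le_left _ _).trans (by norm_num))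
  intro y hy y' hy' h1 h2 haa t ht
  set c1 := min (c / 2) (min (1 / 8) (1 / (2 * (E + 1)))) with hc1
  have g1 : c1 ≤ c / 2 := min_le_left _ _
  have g2 : c1 ≤ 1 / 8 := (min_le_right _ _).trans (min_le_left _ _)
  have g3 : c1 ≤ 1 / (2 * (E + 1)) := (min_le_right _ _).trans (min_le_right _ _)
  have hc10 : 0 < c1 := by positivity
  have hEc : E * c1 ≤ 1 / 2 := by
    calc E * c1 ≤ E * (1 / (2 * (E + 1))) := mul_le_mul_of_nonneg_left g3 hE0
      _ ≤ 1 / 2 := by
        rw [mul_one_div, div_le_div_iff₀ (by positivity) (by norm_num)]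
        linarith
  have ht0 : 0 ≤ t := (norm_nonneg _).trans ht
  set γ : V k := (e (χ y)).1 - (e (χ y')).1 with hγ
  have hγn : ‖γ‖ ≤ 2 * c1 := by
    calc ‖γ‖ ≤ ‖(e (χ y)).1‖ + ‖(e (χ y')).1‖ := norm_sub_le _ _
      _ ≤ ‖e (χ y)‖ + ‖e (χ y')‖ := add_le_add (norm_fst_le _) (norm_fst_le _)
      _ ≤ 2 * c1 := by linarith
  obtain ⟨hs, he⟩ := hbox y' hy' γ (by linarith) (by linarith)
  have he2 : e (χ (R γ y')) = ((e (χ y)).1, (e (χ y')).2) := by
    rw [he]
    refine Prod.ext ?_ ?_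
    · simp [hγ]
    · simp
  have hn1 : ‖e (χ (R γ y'))‖ ≤ c1 := by
    rw [he2, Prod.norm_def]
    exact max_le ((norm_fst_le (e (χ y))).trans h1) ((norm_snd_le (e (χ y'))).trans h2)
  have hn2 : ‖χ (R γ y')‖ ≤ 1 / 2 :=
    (hE _).trans ((mul_le_mul_of_nonneg_left hn1 hE0).trans hEc)
  have hn3 : ‖χ y‖ ≤ 1 / 2 := (hE _).trans ((mul_le_mul_of_nonneg_left h1 hE0).trans hEc)
  have hd1 : ‖e (χ (R γ y')) - e (χ y)‖ ≤ t := by
    rw [he2]
    have : (((e (χ y)).1, (e (χ y')).2) : V k × V D) - e (χ y) =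
        (0, (e (χ y')).2 - (e (χ y)).2) := by
      refine Prod.ext ?_ ?_ <;> simp
    rw [this, Prod.norm_def]
    simp only [norm_zero]
    refine max_le ht0 ?_
    rw [norm_sub_rev]
    exact ht
  have hd2 : ‖χ (R γ y') - χ y‖ ≤ E * t := (hE2 _ _).trans (mul_le_mul_of_nonneg_left hd1 hE0)
  have hγj : ∀ j, |γ j| ≤ La * E * t := by
    intro j
    have q1 := hLip _ hs _ hy hn2 hn3 j
    rw [ha.equiv, ← congrFun haa j] at q1
    have q2 : Complex.exp (2 * Real.pi * Complex.I * (γ j : ℝ)) * a y j - a y j =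
        (Complex.exp (2 * Real.pi * Complex.I * (γ j : ℝ)) - 1) * a y j := by ring
    rw [q2, norm_mul, ha.norm, mul_one] at q1
    have q3 : |γ j| ≤ 1 / 2 := (abs_le_norm γ j).trans (hγn.trans (by linarith))
    have q4 := four_le (γ j) q3
    have q5 : La * ‖χ (R γ y') - χ y‖ ≤ La * (E * t) := mul_le_mul_of_nonneg_left hd2 hLa
    have q6 := abs_nonneg (γ j)
    calc |γ j| ≤ 4 * |γ j| := by linarith
      _ ≤ La * (E * t) := (q4.trans q1).trans q5
      _ = La * E * t := by ring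
  have hγs : ‖γ‖ ≤ k * (La * E) * t := by
    refine (norm_le_sum _).trans ?_
    calc ∑ j, |γ j| ≤ ∑ _j : Fin k, La * E * t := Finset.sum_le_sum fun j _ => hγj j
      _ = k * (La * E) * t := by
        simp only [Finset.sum_const, Finset.card_univ, Fintype.card_fin, nsmul_eq_mul]
        ring
  have hfin : ‖e (χ y) - e (χ y')‖ ≤ (k * (La * E) + 1) * t := by
    rw [Prod.norm_def]
    have q1 : 0 ≤ k * (La * E) * t := by positivity
    refine max_le ?_ ?_
    · rw [Prod.fst_sub]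
      calc ‖(e (χ y)).1 - (e (χ y')).1‖ ≤ k * (La * E) * t := hγs
        _ ≤ _ := by linarith
    · rw [Prod.snd_sub]
      calc ‖(e (χ y)).2 - (e (χ y')).2‖ ≤ t := ht
        _ ≤ _ := by linarith
  calc ‖χ y - χ y'‖ ≤ E * ‖e (χ y) - e (χ y')‖ := hE2 _ _
    _ ≤ E * ((k * (La * E) + 1) * t) := mul_le_mul_of_nonneg_left hfin hE0
    _ = E * (k * (La * E) + 1) * t := by ring

/-- all rotations are uniformly Lipschitz -/
theorem R_lip (hR : FreeTorus k n N R) (d : N → N → ℝ) (hdn : ∀ y y', 0 ≤ d y y')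
    (hdG : ∀ (k : ℕ) (G : V k × N → N), ContMDiff ((𝓡 k).prod (𝓡 n)) (𝓡 n) 1 G →
        ∀ K : Set (V k), IsCompact K → ∃ L : ℝ, ∀ γ ∈ K, ∀ y y',
          d (G (γ, y)) (G (γ, y')) ≤ L * d y y') :
    ∃ L : ℝ, 0 ≤ L ∧ ∀ γ y y', d (R γ y) (R γ y') ≤ L * d y y' := by
  obtain ⟨L, hL⟩ := hdG k (fun q => R q.1 q.2) (hR.smooth.of_le (by exact_mod_cast le_top))
    (closedBall 0 k) (isCompact_closedBall 0 _)
  refine ⟨|L|, abs_nonneg _, fun γ y y' => ?_⟩
  let γ' : V k := WithLp.toLp 2 (fun j => Int.fract (γ j))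
  have h1 : ∀ y, R γ y = R γ' y := by
    intro y
    have h2 : R (γ - γ') y = y := by
      apply R_int hR
      intro j
      refine ⟨⌊γ j⌋, ?_⟩
      rw [PiLp.sub_apply]
      change γ j - Int.fract (γ j) = _
      exact Int.self_sub_fract _
    calc R γ y = R (γ' + (γ - γ')) y := by rw [add_sub_cancel]
      _ = R γ' (R (γ - γ') y) := hR.add _ _ _
      _ = R γ' y := by rw [h2]
  have h3 : γ' ∈ closedBall (0 : V k) k := by
    rw [mem_closedBall_zero_iff]
    refine (norm_le_sum _).trans ?_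
    calc ∑ j, |γ' j| ≤ ∑ _j : Fin k, (1 : ℝ) := by
          refine Finset.sum_le_sum fun j _ => ?_
          change |Int.fract (γ j)| ≤ 1
          rw [abs_of_nonneg (Int.fract_nonneg _)]
          exact (Int.fract_lt_one _).le
      _ = k := by simp
  rw [h1 y, h1 y']
  refine (hL γ' h3 y y').trans ?_
  exact mul_le_mul_of_nonneg_right (le_abs_self _) (hdn _ _)

end

end Pool.Agent.W318.SC
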