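import Pool.Agent.W318.SC.Chain3

/-! # Closed chains: charts -/

set_option autoImplicit false

open scoped Manifold ContDiff Topology
open Filter Set Metric

universe u

namespace Pool.Agent.W318.SC

open Pool.Agent.H718R2.G Pool.Agent.W564.SC

section
variable {k D n : ℕ} {N : Type u} [TopologicalSpace N] [T2Space N] [CompactSpace N]
  [ChartedSpace (V n) N] [IsManifold (𝓡 n) ∞ N] {R : V k → N → N} {a : N → Fin k → ℂ}

theorem chart_at (h : S_AD.{u}) (hDk : D + k = n) (hR : FreeTorus k n N R)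
    (ha : Trivial k n N R a) (d : N → N → ℝ)
    (hdch : ∀ (χ : OpenPartialHomeomorph N (V n)) (z : N), GoodChart n N χ z → ∃ L : ℝ, 1 ≤ L ∧
        ∀ y ∈ χ.source, ∀ y' ∈ χ.source, ‖χ y‖ ≤ 1 / 2 → ‖χ y'‖ ≤ 1 / 2 →
          d y y' ≤ L * ‖χ y - χ y'‖ ∧ ‖χ y - χ y'‖ ≤ L * d y y')
    (La : ℝ) (hLa0 : 0 ≤ La) (hLa : ∀ y y' j, ‖a y j - a y' j‖ ≤ La * d y y') (z' : N) :
    ∃ (χ : OpenPartialHomeomorph N (V n)) (O : Set N) (S : N → V D) (L K : ℝ),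
      GoodChart n N χ z' ∧ IsOpen O ∧ z' ∈ O ∧
      (∀ y ∈ O, y ∈ χ.source ∧ ‖χ y‖ ≤ 1 / 8 ∧ ‖S y‖ ≤ 1) ∧ 0 ≤ L ∧ 0 ≤ K ∧
      (∀ y ∈ χ.source, ∀ y' ∈ χ.source, ‖χ y‖ ≤ 1 / 2 → ‖χ y'‖ ≤ 1 / 2 →
          d y y' ≤ L * ‖χ y - χ y'‖ ∧ ‖χ y - χ y'‖ ≤ L * d y y') ∧
      ∀ y ∈ O, ∀ y' ∈ O, a y = a y' → ∀ t, ‖S y - S y'‖ ≤ t → d y y' ≤ K * t := by
  obtain ⟨D', χ, e, c, hD', hχ, hc, hbox, -⟩ := h k n N R hR z'
  obtain rfl : D' = D := by omega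
  obtain ⟨L, hL1, hL⟩ := hdch χ z' hχ
  have hL0 : 0 ≤ L := by linarith
  obtain ⟨c1, K, hc1, hc11, hK, hcl⟩ := box_close χ e c (La * L) hc (mul_nonneg hLa0 hL0) ha hbox
    (by
      intro y hy y' hy' h1 h2 j
      refine (hLa y y' j).trans ?_
      rw [mul_assoc]
      exact mul_le_mul_of_nonneg_left (hL y hy y' hy' h1 h2).1 hLa0)
  refine ⟨χ, χ.source ∩ χ ⁻¹' {v | ‖e v‖ < c1 ∧ ‖v‖ < 1 / 8}, fun y => (e (χ y)).2, L, L * K, hχ,
    ?_, ?_, ?_, hL0, mul_nonneg hL0 hK, hL, ?_⟩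
  · apply χ.isOpen_inter_preimage
    exact (isOpen_lt (e.continuous.norm) continuous_const).inter
      (isOpen_lt continuous_norm continuous_const)
  · refine ⟨hχ.src, ?_⟩
    simp only [mem_preimage, hχ.zero, mem_ofPred_eq, map_zero, norm_zero]
    exact ⟨hc1, by norm_num⟩
  · rintro y ⟨hy, hy1, hy2⟩
    exact ⟨hy, hy2.le, ((norm_snd_le (e (χ y))).trans hy1.le).trans hc11⟩
  · rintro y ⟨hy, hy1, hy2⟩ y' ⟨hy', hy1', hy2'⟩ haa t ht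
    have h1 := hcl y hy y' hy' hy1.le hy1'.le haa t ht
    have h2 := (hL y hy y' hy' (by linarith) (by linarith)).1
    calc d y y' ≤ L * ‖χ y - χ y'‖ := h2
      _ ≤ L * (K * t) := mul_le_mul_of_nonneg_left h1 hL0
      _ = L * K * t := by ring

theorem charts (h : S_AD.{u}) (hDk : D + k = n) (hR : FreeTorus k n N R)
    (ha : Trivial k n N R a) (d : N → N → ℝ) (hdn : ∀ y y', 0 ≤ d y y')
    (hdch : ∀ (χ : OpenPartialHomeomorph N (V n)) (z : N), GoodChart n N χ z → ∃ L : ℝ, 1 ≤ L ∧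
        ∀ y ∈ χ.source, ∀ y' ∈ χ.source, ‖χ y‖ ≤ 1 / 2 → ‖χ y'‖ ≤ 1 / 2 →
          d y y' ≤ L * ‖χ y - χ y'‖ ∧ ‖χ y - χ y'‖ ≤ L * d y y')
    (La : ℝ) (hLa0 : 0 ≤ La) (hLa : ∀ y y' j, ‖a y j - a y' j‖ ≤ La * d y y') (z : N) :
    ∃ (A : ℕ) (χs : Fin A → OpenPartialHomeomorph N (V n)) (zs : Fin A → N) (O : Fin A → Set N)
      (S : Fin A → N → V D) (L K : ℝ), 1 ≤ A ∧
      (∀ b, GoodChart n N (χs b) (zs b)) ∧ (∀ y, ∃ b, y ∈ O b) ∧
      (∀ b, ∀ y ∈ O b, y ∈ (χs b).source ∧ ‖χs b y‖ ≤ 1 / 8 ∧ ‖S b y‖ ≤ 1) ∧ 1 ≤ L ∧ 0 ≤ K ∧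
      (∀ b, ∀ y ∈ (χs b).source, ∀ y' ∈ (χs b).source, ‖χs b y‖ ≤ 1 / 2 → ‖χs b y'‖ ≤ 1 / 2 →
          d y y' ≤ L * ‖χs b y - χs b y'‖ ∧ ‖χs b y - χs b y'‖ ≤ L * d y y') ∧
      ∀ b, ∀ y ∈ O b, ∀ y' ∈ O b, a y = a y' → ∀ t, ‖S b y - S b y'‖ ≤ t → d y y' ≤ K * t := by
  choose χ O S L K hχ hOo hzO hO hL0 hK0 hL hK using
    chart_at h hDk hR ha d hdch La hLa0 hLa (D := D)
  obtain ⟨t, ht⟩ := CompactSpace.elim_nhds_subcover O (fun x => (hOo x).mem_nhds (hzO x))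
  let f : Fin t.card → N := fun b => (t.equivFin.symm b : N)
  have hcov : ∀ y, ∃ b, y ∈ O (f b) := by
    intro y
    have hy : y ∈ (⊤ : Set N) := mem_univ _
    rw [← ht] at hy
    simp only [mem_iUnion] at hy
    obtain ⟨x, hx, hy⟩ := hy
    refine ⟨t.equivFin ⟨x, hx⟩, ?_⟩
    simp only [f, Equiv.symm_apply_apply]
    exact hy
  obtain ⟨b0, -⟩ := hcov z
  have hA : 1 ≤ t.card := by
    have := b0.isLt
    omega
  refine ⟨t.card, fun b => χ (f b), f, fun b => O (f b), fun b => S (f b),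
    1 + ∑ b, L (f b), 1 + ∑ b, K (f b), hA, fun b => hχ (f b), hcov, fun b => hO (f b), ?_, ?_,
    ?_, ?_⟩
  · have : 0 ≤ ∑ b, L (f b) := Finset.sum_nonneg fun b _ => hL0 (f b)
    linarith
  · have : 0 ≤ ∑ b, K (f b) := Finset.sum_nonneg fun b _ => hK0 (f b)
    linarith
  · intro b y hy y' hy' h1 h2
    have h3 := le_one_add_sum (fun b => L (f b)) (fun b => hL0 (f b)) b
    obtain ⟨h4, h5⟩ := hL (f b) y hy y' hy' h1 h2
    exact ⟨h4.trans (mul_le_mul_of_nonneg_right h3 (norm_nonneg _)),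
      h5.trans (mul_le_mul_of_nonneg_right h3 (hdn _ _))⟩
  · intro b y hy y' hy' haa s hs
    have h3 := le_one_add_sum (fun b => K (f b)) (fun b => hK0 (f b)) b
    have hs0 : 0 ≤ s := (norm_nonneg _).trans hs
    exact (hK (f b) y hy y' hy' haa s hs).trans (mul_le_mul_of_nonneg_right h3 hs0)

omit [IsManifold (𝓡 n) ∞ N] in
theorem eps (d : N → N → ℝ) (hd0 : ∀ y y', d y y' = 0 ↔ y = y') (hdn : ∀ y y', 0 ≤ d y y')
    (hdc : Continuous fun p : N × N => d p.1 p.2) {A : ℕ}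
    (χs : Fin A → OpenPartialHomeomorph N (V n)) (zs : Fin A → N)
    (hχ : ∀ b, GoodChart n N (χs b) (zs b)) :
    ∃ ε > 0, ∀ b, ∀ y ∈ (χs b).source, ‖χs b y‖ ≤ 1 / 8 → ∀ y', d y y' < ε →
      y' ∈ (χs b).source ∧ ‖χs b y'‖ < 1 / 2 := by
  have h1 : ∀ b, ∃ ε > 0, ∀ y ∈ (χs b).symm '' closedBall 0 (1 / 8), ∀ y', d y y' < ε →
      y' ∈ (χs b).source ∩ (χs b) ⁻¹' ball 0 (1 / 2) := by
    intro b
    have hsub : closedBall (0 : V n) (1 / 8) ⊆ (χs b).target :=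
      (closedBall_subset_closedBall (by norm_num)).trans (hχ b).ball
    apply leb d hd0 hdn hdc
    · exact (isCompact_closedBall _ _).image_of_continuousOn ((χs b).continuousOn_symm.mono hsub)
    · exact (χs b).isOpen_inter_preimage isOpen_ball
    · rintro _ ⟨v, hv, rfl⟩
      refine ⟨(χs b).map_target (hsub hv), ?_⟩
      rw [mem_preimage, (χs b).right_inv (hsub hv)]
      exact closedBall_subset_ball (by norm_num) hv
  choose ε hε hε2 using h1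
  obtain ⟨ε0, hε0, hle⟩ := exists_pos_le ε hε
  refine ⟨ε0, hε0, fun b y hy hyn y' hd => ?_⟩
  have h2 := hε2 b y ⟨χs b y, by rwa [mem_closedBall_zero_iff], (χs b).left_inv hy⟩ y'
    (hd.trans_le (hle b))
  refine ⟨h2.1, ?_⟩
  have h3 := h2.2
  rwa [mem_preimage, mem_ball_zero_iff] at h3

omit [T2Space N] [CompactSpace N] [IsManifold (𝓡 n) ∞ N] in
theorem chain_slice (hR : FreeTorus k n N R) (ha : Trivial k n N R a) (d : N → N → ℝ)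
    (hd0 : ∀ y y', d y y' = 0 ↔ y = y') 
    (hdc : Continuous fun p : N × N => d p.1 p.2) (F : N → N)
    (hF : ∀ t y, F (R t y) = R t (F y)) (haF : ∀ y, a (F y) = a y) (z : N) (hz : ChainRec F z)
    (δ : ℝ) (hδ : 0 < δ) :
    ∃ (m : ℕ) (c : ℕ → N), 1 ≤ m ∧ c 0 = z ∧ c m = z ∧ (∀ i, a (c i) = a z) ∧
      ∀ i < m, d (F (c i)) (c (i + 1)) < δ := by
  have hP := Pj_cont hR ha z
  obtain ⟨m, c, hm, h0, h1, hc⟩ := hz {p | d (Pj R a z p.1) (Pj R a z p.2) < δ}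
    (isOpen_lt (hdc.comp ((hP.comp continuous_fst).prodMk (hP.comp continuous_snd)))
      continuous_const) (fun y => by
        simp only [mem_ofPred_eq]
        rw [(hd0 _ _).2 rfl]
        exact hδ)
  refine ⟨m, fun i => Pj R a z (c i), hm, ?_, ?_, fun i => a_Pj ha z _, fun i hi => ?_⟩
  · simp only [h0, Pj_self hR ha z]
  · simp only [h1, Pj_self hR ha z]
  · have h2 := hc i hi
    simp only [mem_ofPred_eq] at h2
    simp only [Pj_comm z F hF haF]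
    exact h2

end

end Pool.Agent.W318.SC
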